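import Pool.Agent.Q2.UN.Two

namespace Pool.Agent.Q2.UN

open Finset

/-- Cartan matrices with a choice of (half) square lengths of simple roots:
`A i j = 2 (α_i, α_j) / (α_j, α_j)` and `d i = (α_i, α_i) / 2`, so that
`(α_i, α_j) = A i j * d j`. The last condition is the positivity of the invariant form. -/
structure IsCartanDatum {ι : Type} [Fintype ι] (A : Matrix ι ι ℤ) (d : ι → ℕ) : Prop where
  diag : ∀ i, A i i = 2
  offdiag : ∀ i j, i ≠ j → A i j ≤ 0
  pos : ∀ i, 0 < d i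
  symm : ∀ i j, A i j * d j = A j i * d i
  posDef : ∀ x : ι → ℤ, x ≠ 0 → 0 < ∑ i, ∑ j, A i j * d j * x i * x j

variable {ι : Type} [Fintype ι] [DecidableEq ι]

/-- `(α, α)` for `α = ∑ α_i a_i` -/
def normSq (A : Matrix ι ι ℤ) (d : ι → ℕ) (α : ι → ℕ) : ℤ :=
  ∑ i, ∑ j, A i j * d j * α i * α j

/-- `(q)_α = ∏_i ∏_{j=1}^{a_i} (1 - q^{d_i j})`, as a rational function in `q`. -/
noncomputable def qpoch (d : ι → ℕ) (α : ι → ℕ) : RatFunc ℚ :=
  ∏ i, ∏ j ∈ Icc 1 (α i), (1 - RatFunc.X ^ (d i * j))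

/-- `J` is the family `𝔍_α`: `𝔍_0 = 1` and
`𝔍_α = ∑_{0 ≤ β ≤ α} q^{(β,β)/2} / (q)_{α-β} 𝔍_β`. -/
def IsJ (A : Matrix ι ι ℤ) (d : ι → ℕ) (J : (ι → ℕ) → RatFunc ℚ) : Prop :=
  J 0 = 1 ∧ ∀ α, J α = ∑ β ∈ Icc 0 α,
    RatFunc.X ^ (normSq A d β / 2) / qpoch d (α - β) * J β

theorem even_normSq {A : Matrix ι ι ℤ} {d : ι → ℕ} (h : IsCartanDatum A d) (α : ι → ℕ) :
    2 ∣ normSq A d α := by
  have h1 : ((normSq A d α : ℤ) : ZMod 2) = 0 := by
    unfold normSq
    rw [← Finset.sum_product', Int.cast_sum]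
    refine Finset.sum_involution (fun p _ => (p.2, p.1)) ?_ ?_ ?_ ?_
    · rintro ⟨i, j⟩ _
      simp only
      have : A i j * d j * α i * α j = A j i * d i * α j * α i := by
        rw [h.symm i j]
        ring
      rw [this, ← two_mul]
      have h2 : (2 : ZMod 2) = 0 := by decide
      rw [h2, zero_mul]
    · rintro ⟨i, j⟩ _ hne heq
      apply hne
      simp only [Prod.mk.injEq] at heq
      obtain ⟨h2, h3⟩ := heq
      subst h2
      simp only
      rw [h.diag]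
      push_cast
      have h2 : (2 : ZMod 2) = 0 := by decide
      rw [h2]
      ring
    · intro _ _
      simp
    · intro _ _
      rfl
  exact (ZMod.intCast_zmod_eq_zero_iff_dvd _ 2).1 h1

theorem normSq_pos {A : Matrix ι ι ℤ} {d : ι → ℕ} (h : IsCartanDatum A d) (α : ι → ℕ)
    (hα : α ≠ 0) : 0 < normSq A d α := by
  have := h.posDef (fun i => (α i : ℤ)) (by
    intro h0
    apply hα
    funext i
    have := congrFun h0 i
    simpa using this)
  exact this

theorem half_pos {A : Matrix ι ι ℤ} {d : ι → ℕ} (h : IsCartanDatum A d) (α : ι → ℕ)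
    (hα : α ≠ 0) : 0 < normSq A d α / 2 := by
  have h1 := normSq_pos h α hα
  obtain ⟨k, hk⟩ := even_normSq h α
  omega

theorem X_pow_ne (k : ℕ) (hk : 0 < k) : (RatFunc.X : RatFunc ℚ) ^ k ≠ 1 := by
  intro h
  have h1 : algebraMap (Polynomial ℚ) (RatFunc ℚ) (Polynomial.X ^ k) =
      algebraMap (Polynomial ℚ) (RatFunc ℚ) 1 := by
    rw [map_pow, map_one, RatFunc.algebraMap_X]
    exact h
  have h2 := RatFunc.algebraMap_injective ℚ h1
  have h3 := congrArg Polynomial.natDegree h2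
  rw [Polynomial.natDegree_X_pow, Polynomial.natDegree_one] at h3
  omega

theorem one_sub_ne {A : Matrix ι ι ℤ} {d : ι → ℕ} (h : IsCartanDatum A d) (α : ι → ℕ)
    (hα : α ≠ 0) : (1 : RatFunc ℚ) - RatFunc.X ^ (normSq A d α / 2) ≠ 0 := by
  have h1 := half_pos h α hα
  obtain ⟨k, hk⟩ := Int.eq_ofNat_of_zero_le h1.le
  rw [hk] at h1 ⊢
  rw [zpow_natCast, sub_ne_zero]
  exact (X_pow_ne k (by exact_mod_cast h1)).symm

theorem qpoch_zero (d : ι → ℕ) : qpoch d (0 : ι → ℕ) = 1 := by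
  unfold qpoch
  simp

theorem sum_lt {α β : ι → ℕ} (h : β ∈ Icc 0 α) (hne : β ≠ α) : ∑ i, β i < ∑ i, α i := by
  rw [Finset.mem_Icc] at h
  have h1 : β < α := lt_of_le_of_ne h.2 hne
  rw [Pi.lt_def] at h1
  obtain ⟨h2, i, hi⟩ := h1
  exact Finset.sum_lt_sum (fun i _ => h2 i) ⟨i, Finset.mem_univ i, hi⟩

/-- The recursion determines the family uniquely. -/
theorem existsUnique_J {A : Matrix ι ι ℤ} {d : ι → ℕ} (h : IsCartanDatum A d) :
    ∃! J, IsJ A d J := by
  -- the solved recursion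
  let F : (α : ι → ℕ) → ((β : ι → ℕ) → (∑ i, β i < ∑ i, α i) → RatFunc ℚ) → RatFunc ℚ :=
    fun α rec => if α = 0 then 1 else
      (1 - RatFunc.X ^ (normSq A d α / 2))⁻¹ * ∑ β ∈ (Icc 0 α).attach,
        if hβ : β.1 = α then 0 else
          RatFunc.X ^ (normSq A d β.1 / 2) / qpoch d (α - β.1) * rec β.1 (sum_lt β.2 hβ)
  have wf : WellFounded (fun α β : ι → ℕ => ∑ i, α i < ∑ i, β i) :=
    InvImage.wf (fun α : ι → ℕ => ∑ i, α i) wellFounded_lt
  let J : (ι → ℕ) → RatFunc ℚ := wf.fix F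
  have hJ : ∀ α, J α = F α (fun β _ => J β) := fun α => wf.fix_eq F α
  have hJ0 : J 0 = 1 := by
    rw [hJ]
    simp [F]
  have key : ∀ (J : (ι → ℕ) → RatFunc ℚ) α, α ≠ 0 →
      ((J α = ∑ β ∈ Icc 0 α, RatFunc.X ^ (normSq A d β / 2) / qpoch d (α - β) * J β) ↔
      J α = (1 - RatFunc.X ^ (normSq A d α / 2))⁻¹ * ∑ β ∈ (Icc 0 α).erase α,
        RatFunc.X ^ (normSq A d β / 2) / qpoch d (α - β) * J β) := by
    intro J α hα
    have h1 : α ∈ Icc 0 α := by
      rw [Finset.mem_Icc]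
      exact ⟨bot_le, le_rfl⟩
    rw [← Finset.add_sum_erase _ _ h1, tsub_self, qpoch_zero, div_one]
    have h2 := one_sub_ne h α hα
    rw [eq_inv_mul_iff_mul_eq₀ h2]
    constructor
    · intro h3
      rw [sub_mul, one_mul]
      nth_rewrite 1 [h3]
      ring
    · intro h3
      rw [← h3]
      ring
  have hJ' : ∀ α, α ≠ 0 → J α = (1 - RatFunc.X ^ (normSq A d α / 2))⁻¹ *
      ∑ β ∈ (Icc 0 α).erase α, RatFunc.X ^ (normSq A d β / 2) / qpoch d (α - β) * J β := by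
    intro α hα
    rw [hJ]
    simp only [F, if_neg hα]
    congr 1
    have h1 : α ∈ Icc 0 α := by
      rw [Finset.mem_Icc]
      exact ⟨bot_le, le_rfl⟩
    have h2 : ∑ β ∈ (Icc 0 α).attach, (if hβ : β.1 = α then (0 : RatFunc ℚ) else
          RatFunc.X ^ (normSq A d β.1 / 2) / qpoch d (α - β.1) * J β.1) =
        ∑ β ∈ Icc 0 α, (if β = α then (0 : RatFunc ℚ) else
          RatFunc.X ^ (normSq A d β / 2) / qpoch d (α - β) * J β) := by
      rw [← Finset.sum_attach (Icc 0 α)]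
      apply Finset.sum_congr rfl
      intro β _
      by_cases hb : β.1 = α
      · simp [hb]
      · simp [hb]
    rw [h2, ← Finset.add_sum_erase _ _ h1, if_pos rfl, zero_add]
    apply Finset.sum_congr rfl
    intro β hβ
    rw [if_neg (Finset.ne_of_mem_erase hβ)]
  have hzero : ∀ (J : (ι → ℕ) → RatFunc ℚ), J 0 = 1 →
      J 0 = ∑ β ∈ Icc 0 0, RatFunc.X ^ (normSq A d β / 2) / qpoch d (0 - β) * J β := by
    intro J h0
    rw [Finset.Icc_self, Finset.sum_singleton]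
    have : normSq A d (0 : ι → ℕ) = 0 := by
      simp [normSq]
    rw [this, tsub_self, qpoch_zero]
    simp
  refine ⟨J, ⟨hJ0, fun α => ?_⟩, ?_⟩
  · by_cases hα : α = 0
    · subst hα
      exact hzero J hJ0
    · exact (key J α hα).2 (hJ' α hα)
  · rintro J' ⟨h0, h1⟩
    funext α
    induction α using wf.induction with
    | _ α ih =>
      by_cases hα : α = 0
      · subst hα
        rw [h0, hJ0]
      · rw [(key J' α hα).1 (h1 α), hJ' α hα]
        congr 1
        apply Finset.sum_congr rfl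
        intro β hβ
        rw [ih β (sum_lt (Finset.mem_of_mem_erase hβ) (Finset.ne_of_mem_erase hβ))]

end Pool.Agent.Q2.UN
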