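import Pool.Agent.Q2.UN.Defs

namespace Pool.Agent.Q2.UN

open Finset

variable {ι : Type} [Fintype ι] [DecidableEq ι]

/-- `a α_i + b α_j` -/
def emb (i j : ι) (a b : ℕ) : ι → ℕ := fun k => if k = i then a else if k = j then b else 0

theorem emb_i (i j : ι) (a b : ℕ) : emb i j a b i = a := by simp [emb]

theorem emb_j (i j : ι) (hij : i ≠ j) (a b : ℕ) : emb i j a b j = b := by
  simp [emb, hij.symm]

theorem emb_k (i j : ι) (a b : ℕ) (k : ι) (hi : k ≠ i) (hj : k ≠ j) : emb i j a b k = 0 := by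
  simp [emb, hi, hj]

theorem emb_zero (i j : ι) : emb i j 0 0 = 0 := by
  funext k
  simp [emb]

theorem normSq_emb {A : Matrix ι ι ℤ} {d : ι → ℕ} (h : IsCartanDatum A d) (i j : ι) (hij : i ≠ j)
    (x y : ℕ) : normSq A d (emb i j x y) =
      2 * (d i * x ^ 2 + A i j * d j * x * y + d j * y ^ 2) := by
  unfold normSq
  have h1 : ∀ k : ι, ∑ l, A k l * d l * (emb i j x y k : ℤ) * (emb i j x y l : ℤ) =
      (A k i * d i * (emb i j x y k : ℤ) * x) + (A k j * d j * (emb i j x y k : ℤ) * y) := by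
    intro k
    rw [Finset.sum_eq_add i j hij]
    · rw [emb_i, emb_j i j hij]
    · intro l _ hl
      rw [emb_k i j x y l hl.1 hl.2]
      simp
    · intro hi
      exact absurd (Finset.mem_univ i) hi
    · intro hj
      exact absurd (Finset.mem_univ j) hj
  simp only [h1]
  rw [Finset.sum_eq_add i j hij]
  · rw [emb_i, emb_j i j hij, h.diag, h.diag, h.symm j i]
    ring
  · intro l _ hl
    rw [emb_k i j x y l hl.1 hl.2]
    simp
  · intro hi
    exact absurd (Finset.mem_univ i) hi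
  · intro hj
    exact absurd (Finset.mem_univ j) hj

theorem qpoch_emb (d : ι → ℕ) (i j : ι) (hij : i ≠ j) (a b : ℕ) :
    qpoch d (emb i j a b) = p1 RatFunc.X (d i) a * p1 RatFunc.X (d j) b := by
  unfold qpoch p1
  rw [Finset.prod_eq_mul i j hij]
  · rw [emb_i, emb_j i j hij]
  · intro l _ hl
    rw [emb_k i j a b l hl.1 hl.2]
    simp
  · intro hi
    exact absurd (Finset.mem_univ i) hi
  · intro hj
    exact absurd (Finset.mem_univ j) hj

theorem emb_sub (i j : ι) (a b x y : ℕ) :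
    emb i j a b - emb i j x y = emb i j (a - x) (b - y) := by
  funext k
  simp only [emb, Pi.sub_apply]
  split_ifs <;> simp

theorem sum_emb {M : Type*} [AddCommMonoid M] (i j : ι) (hij : i ≠ j) (a b : ℕ)
    (F : (ι → ℕ) → M) :
    ∑ β ∈ Icc 0 (emb i j a b), F β =
      ∑ x ∈ range (a + 1), ∑ y ∈ range (b + 1), F (emb i j x y) := by
  rw [← Finset.sum_product']
  refine Finset.sum_bij' (fun β _ => (β i, β j)) (fun p _ => emb i j p.1 p.2) ?_ ?_ ?_ ?_ ?_
  · intro β hβ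
    rw [Finset.mem_Icc] at hβ
    have h1 : β i ≤ a := by
      have := hβ.2 i
      rwa [emb_i] at this
    have h2 : β j ≤ b := by
      have := hβ.2 j
      rwa [emb_j i j hij] at this
    simp only [Finset.mem_product, Finset.mem_range]
    omega
  · rintro ⟨x, y⟩ hp
    simp only [Finset.mem_product, Finset.mem_range] at hp
    rw [Finset.mem_Icc]
    refine ⟨bot_le, fun k => ?_⟩
    simp only [emb]
    split_ifs <;> omega
  · intro β hβ
    rw [Finset.mem_Icc] at hβ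
    funext k
    simp only [emb]
    split_ifs with h1 h2
    · rw [h1]
    · rw [h2]
    · have h3 : β k ≤ 0 := by
        have := hβ.2 k
        rwa [emb_k i j a b k h1 h2] at this
      omega
  · rintro ⟨x, y⟩ _
    simp only [emb_i, emb_j i j hij]
  · intro β hβ
    rw [Finset.mem_Icc] at hβ
    congr 1
    funext k
    simp only [emb]
    split_ifs with h1 h2
    · rw [h1]
    · rw [h2]
    · have h3 : β k ≤ 0 := by
        have := hβ.2 k
        rwa [emb_k i j a b k h1 h2] at this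
      omega

/-- two-variable form of the recursion for the numerators -/
theorem rec_emb {A : Matrix ι ι ℤ} {d : ι → ℕ} (h : IsCartanDatum A d) (i j : ι) (hij : i ≠ j)
    (e : ℕ → ℕ → ℕ) (he : ∀ x y : ℕ, (e x y : ℤ) = d i * x ^ 2 + A i j * d j * x * y + d j * y ^ 2)
    (J : (ι → ℕ) → RatFunc ℚ) (hJ : IsJ A d J) (a b : ℕ) :
    qpoch d (emb i j a b) ^ 2 * J (emb i j a b) =
      ∑ x ∈ range (a + 1), ∑ y ∈ range (b + 1), RatFunc.X ^ (e x y) *
        cc RatFunc.X (d i) a x * cc RatFunc.X (d j) b y *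
          (qpoch d (emb i j x y) ^ 2 * J (emb i j x y)) := by
  apply numerator_rec RatFunc.X X_pow_ne (d i) (d j) (h.pos i) (h.pos j) e
    (fun a b => J (emb i j a b)) ?_ (fun a b => qpoch d (emb i j a b) ^ 2 * J (emb i j a b)) ?_
  · intro a b
    change J (emb i j a b) = _
    rw [hJ.2, sum_emb i j hij]
    apply Finset.sum_congr rfl
    intro x _
    apply Finset.sum_congr rfl
    intro y _
    rw [normSq_emb h i j hij, emb_sub, qpoch_emb d i j hij, Int.mul_ediv_cancel_left _ (by norm_num),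
      ← he, zpow_natCast]
  · intro a b
    rw [qpoch_emb d i j hij]

theorem value_B {A : Matrix ι ι ℤ} {d : ι → ℕ} (h : IsCartanDatum A d) (i j : ι) (hij : i ≠ j)
    (hd : d j = 1) (h1 : A i j = -2) (h2 : A j i = -1)
    (J : (ι → ℕ) → RatFunc ℚ) (hJ : IsJ A d J) :
    qpoch d (emb i j 2 2) ^ 2 * J (emb i j 2 2) =
      1 + RatFunc.X ^ 1 + 3 * RatFunc.X ^ 2 + 2 * RatFunc.X ^ 3 + 5 * RatFunc.X ^ 4 +
        2 * RatFunc.X ^ 5 + 3 * RatFunc.X ^ 6 + RatFunc.X ^ 7 + RatFunc.X ^ 8 := by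
  have hdi : d i = 2 := by
    have := h.symm i j
    rw [h1, h2, hd] at this
    push_cast at this
    omega
  have he : ∀ x y : ℕ, ((2 * x ^ 2 + y ^ 2 - 2 * x * y : ℕ) : ℤ) =
      d i * x ^ 2 + A i j * d j * x * y + d j * y ^ 2 := by
    intro x y
    have h3 : 2 * x * y ≤ 2 * x ^ 2 + y ^ 2 := by nlinarith [sq_nonneg ((x : ℤ) - y)]
    rw [Nat.cast_sub h3, h1, hd, hdi]
    push_cast
    ring
  apply valB RatFunc.X X_pow_ne (fun a b => qpoch d (emb i j a b) ^ 2 * J (emb i j a b))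
  · change qpoch d (emb i j 0 0) ^ 2 * J (emb i j 0 0) = 1
    rw [emb_zero, qpoch_zero, hJ.1]
    simp
  · intro a b
    have := rec_emb h i j hij _ he J hJ a b
    rw [hd, hdi] at this
    exact this

theorem value_G {A : Matrix ι ι ℤ} {d : ι → ℕ} (h : IsCartanDatum A d) (i j : ι) (hij : i ≠ j)
    (hd : d j = 1) (h1 : A i j = -3) (h2 : A j i = -1)
    (J : (ι → ℕ) → RatFunc ℚ) (hJ : IsJ A d J) :
    qpoch d (emb i j 3 3) ^ 2 * J (emb i j 3 3) =
      1 + 2 * RatFunc.X ^ 1 + 5 * RatFunc.X ^ 2 + 11 * RatFunc.X ^ 3 + 16 * RatFunc.X ^ 4 + 24 * RatFunc.X ^ 5 + 39 * RatFunc.X ^ 6 + 46 * RatFunc.X ^ 7 + 60 * RatFunc.X ^ 8 + 84 * RatFunc.X ^ 9 + 88 * RatFunc.X ^ 10 + 99 * RatFunc.X ^ 11 + 119 * RatFunc.X ^ 12 + 110 * RatFunc.X ^ 13 + 110 * RatFunc.X ^ 14 + 119 * RatFunc.X ^ 15 + 99 * RatFunc.X ^ 16 + 88 * RatFunc.X ^ 17 + 84 * RatFunc.X ^ 18 + 60 * RatFunc.X ^ 19 + 46 * RatFunc.X ^ 20 + 39 * RatFunc.X ^ 21 + 24 * RatFunc.X ^ 22 + 16 *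 RatFunc.X ^ 23 + 11 * RatFunc.X ^ 24 + 5 * RatFunc.X ^ 25 + 2 * RatFunc.X ^ 26 + RatFunc.X ^ 27 := by
  have hdi : d i = 3 := by
    have := h.symm i j
    rw [h1, h2, hd] at this
    push_cast at this
    omega
  have he : ∀ x y : ℕ, ((3 * x ^ 2 + y ^ 2 - 3 * x * y : ℕ) : ℤ) =
      d i * x ^ 2 + A i j * d j * x * y + d j * y ^ 2 := by
    intro x y
    have h3 : 3 * x * y ≤ 3 * x ^ 2 + y ^ 2 := by
      zify
      nlinarith [sq_nonneg (3 * (x : ℤ) - 2 * y), sq_nonneg ((x : ℤ))]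
    rw [Nat.cast_sub h3, h1, hd, hdi]
    push_cast
    ring
  apply valG RatFunc.X X_pow_ne (fun a b => qpoch d (emb i j a b) ^ 2 * J (emb i j a b))
  · change qpoch d (emb i j 0 0) ^ 2 * J (emb i j 0 0) = 1
    rw [emb_zero, qpoch_zero, hJ.1]
    simp
  · intro a b
    have := rec_emb h i j hij _ he J hJ a b
    rw [hd, hdi] at this
    exact this

end Pool.Agent.Q2.UN
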