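import Mathlib

set_option linter.unusedSimpArgs false

namespace Pool.Agent.Q2.UN

open Finset

variable {K : Type*} [Field K]

/-- `(1 - q^d)(1 - q^{2d}) ... (1 - q^{ad})`. -/
def p1 (q : K) (d a : ℕ) : K := ∏ j ∈ Icc 1 a, (1 - q ^ (d * j))

/-- the ratio of `q`-factorials appearing in the recursion for the numerators -/
def cc (q : K) (d a x : ℕ) : K := p1 q d a ^ 2 / (p1 q d (a - x) * p1 q d x ^ 2)

theorem p1_zero (q : K) (d : ℕ) : p1 q d 0 = 1 := by simp [p1]

theorem p1_succ (q : K) (d a : ℕ) : p1 q d (a + 1) = p1 q d a * (1 - q ^ (d * (a + 1))) := by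
  unfold p1
  rw [Finset.prod_Icc_succ_top (by omega)]

theorem p1_ne (q : K) (hq : ∀ k, 0 < k → q ^ k ≠ 1) (d : ℕ) (hd : 0 < d) (a : ℕ) :
    p1 q d a ≠ 0 := by
  unfold p1
  rw [Finset.prod_ne_zero_iff]
  intro j hj
  rw [Finset.mem_Icc] at hj
  rw [sub_ne_zero]
  exact (hq (d * j) (Nat.mul_pos hd (by omega))).symm

theorem numerator_rec (q : K) (hq : ∀ k, 0 < k → q ^ k ≠ 1) (d1 d2 : ℕ) (h1 : 0 < d1)
    (h2 : 0 < d2) (e : ℕ → ℕ → ℕ) (f : ℕ → ℕ → K)
    (hf : ∀ a b, f a b = ∑ x ∈ range (a + 1), ∑ y ∈ range (b + 1),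
      q ^ (e x y) / (p1 q d1 (a - x) * p1 q d2 (b - y)) * f x y)
    (N : ℕ → ℕ → K) (hN : ∀ a b, N a b = (p1 q d1 a * p1 q d2 b) ^ 2 * f a b) (a b : ℕ) :
    N a b = ∑ x ∈ range (a + 1), ∑ y ∈ range (b + 1),
      q ^ (e x y) * cc q d1 a x * cc q d2 b y * N x y := by
  rw [hN, hf, Finset.mul_sum]
  apply Finset.sum_congr rfl
  intro x _
  rw [Finset.mul_sum]
  apply Finset.sum_congr rfl
  intro y _
  rw [hN]
  unfold cc
  have n1 := p1_ne q hq d1 h1 (a - x)
  have n2 := p1_ne q hq d2 h2 (b - y)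
  have n3 := p1_ne q hq d1 h1 x
  have n4 := p1_ne q hq d2 h2 y
  field_simp

section cc

variable (q : K) (hq : ∀ k, 0 < k → q ^ k ≠ 1) (d : ℕ) (hd : 0 < d)
include hq hd

theorem cc_self (a : ℕ) : cc q d a a = 1 := by
  unfold cc
  have n1 := p1_ne q hq d hd a
  rw [Nat.sub_self, p1_zero]
  field_simp

theorem cc_one_zero : cc q d 1 0 = 1 - q ^ d := by
  unfold cc
  have n1 := p1_ne q hq d hd 1
  rw [Nat.sub_zero, p1_zero]
  have : p1 q d 1 = 1 - q ^ d := by
    rw [show (1 : ℕ) = 0 + 1 by rfl, p1_succ, p1_zero]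
    simp
  rw [this] at *
  field_simp

theorem p1_one : p1 q d 1 = 1 - q ^ d := by
  rw [show (1 : ℕ) = 0 + 1 by rfl, p1_succ, p1_zero]
  simp

theorem p1_two : p1 q d 2 = (1 - q ^ d) * (1 - q ^ (2 * d)) := by
  rw [show (2 : ℕ) = 1 + 1 by rfl, p1_succ, p1_one q hq d hd]
  ring

theorem p1_three : p1 q d 3 = (1 - q ^ d) * (1 - q ^ (2 * d)) * (1 - q ^ (3 * d)) := by
  rw [show (3 : ℕ) = 2 + 1 by rfl, p1_succ, p1_two q hq d hd]
  ring

theorem cc_two_zero : cc q d 2 0 = (1 - q ^ d) * (1 - q ^ (2 * d)) := by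
  unfold cc
  have n1 := p1_ne q hq d hd 2
  rw [Nat.sub_zero, p1_zero]
  rw [← p1_two q hq d hd]
  field_simp

theorem cc_two_one : cc q d 2 1 = (1 + q ^ d) * (1 - q ^ (2 * d)) := by
  unfold cc
  have n1 : 1 - q ^ d ≠ 0 := sub_ne_zero.2 (hq d hd).symm
  rw [show (2 : ℕ) - 1 = 1 by rfl, p1_one q hq d hd, p1_two q hq d hd]
  have : q ^ (2 * d) = (q ^ d) ^ 2 := by rw [← pow_mul, mul_comm]
  rw [this]
  field_simp
  ring

theorem cc_three_zero : cc q d 3 0 = (1 - q ^ d) * (1 - q ^ (2 * d)) * (1 - q ^ (3 * d)) := by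
  unfold cc
  have n1 := p1_ne q hq d hd 3
  rw [Nat.sub_zero, p1_zero]
  rw [← p1_three q hq d hd]
  field_simp

theorem cc_three_one : cc q d 3 1 = (1 + q ^ d) * (1 - q ^ (3 * d)) ^ 2 := by
  unfold cc
  have n1 : 1 - q ^ d ≠ 0 := sub_ne_zero.2 (hq d hd).symm
  have n2 : 1 - q ^ (2 * d) ≠ 0 := sub_ne_zero.2 (hq (2 * d) (by omega)).symm
  rw [show (3 : ℕ) - 1 = 2 by rfl, p1_one q hq d hd, p1_two q hq d hd, p1_three q hq d hd]
  have e1 : q ^ (2 * d) = (q ^ d) ^ 2 := by rw [← pow_mul, mul_comm]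
  rw [div_eq_iff (by exact mul_ne_zero (mul_ne_zero n1 n2) (pow_ne_zero _ n1)), e1]
  ring

theorem cc_three_two : cc q d 3 2 = (1 + q ^ d + (q ^ d) ^ 2) * (1 - q ^ (3 * d)) := by
  unfold cc
  have n1 : 1 - q ^ d ≠ 0 := sub_ne_zero.2 (hq d hd).symm
  have n2 : 1 - q ^ (2 * d) ≠ 0 := sub_ne_zero.2 (hq (2 * d) (by omega)).symm
  rw [show (3 : ℕ) - 2 = 1 by rfl, p1_one q hq d hd, p1_two q hq d hd, p1_three q hq d hd]
  have e1 : q ^ (3 * d) = (q ^ d) ^ 3 := by rw [← pow_mul, mul_comm]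
  rw [div_eq_iff (by exact mul_ne_zero n1 (pow_ne_zero _ (mul_ne_zero n1 n2))), e1]
  ring

end cc

theorem valB (q : K) (hq : ∀ k, 0 < k → q ^ k ≠ 1) (N : ℕ → ℕ → K) (h00 : N 0 0 = 1)
    (hN : ∀ a b, N a b = ∑ x ∈ range (a + 1), ∑ y ∈ range (b + 1),
      q ^ (2 * x ^ 2 + y ^ 2 - 2 * x * y) * cc q 2 a x * cc q 1 b y * N x y) :
    N 2 2 = 1 + q^1 + 3*q^2 + 2*q^3 + 5*q^4 + 2*q^5 + 3*q^6 + q^7 + q^8 := by
  have u10 := cc_one_zero q hq 2 (by norm_num)
  have u11 := cc_self q hq 2 (by norm_num) 1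
  have u00 := cc_self q hq 2 (by norm_num) 0
  have u20 := cc_two_zero q hq 2 (by norm_num)
  have u21 := cc_two_one q hq 2 (by norm_num)
  have u22 := cc_self q hq 2 (by norm_num) 2
  have v10 := cc_one_zero q hq 1 (by norm_num)
  have v11 := cc_self q hq 1 (by norm_num) 1
  have v00 := cc_self q hq 1 (by norm_num) 0
  have v20 := cc_two_zero q hq 1 (by norm_num)
  have v21 := cc_two_one q hq 1 (by norm_num)
  have v22 := cc_self q hq 1 (by norm_num) 2
  have h01 : N 0 1 = 1 := by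
    have h := hN 0 1
    simp only [Finset.sum_range_succ, Finset.sum_range_zero, zero_add, Nat.reduceAdd, u10, u11, u00, u20, u21, u22, v10, v11, v00, v20, v21, v22,
      h00] at h
    norm_num at h
    have hne : 1 - q ^ 1 ≠ 0 := sub_ne_zero.2 (hq 1 (by norm_num)).symm
    apply mul_left_cancel₀ hne
    linear_combination h
  have h02 : N 0 2 = 1 := by
    have h := hN 0 2
    simp only [Finset.sum_range_succ, Finset.sum_range_zero, zero_add, Nat.reduceAdd, u10, u11, u00, u20, u21, u22, v10, v11, v00, v20, v21, v22,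
      h00, h01] at h
    norm_num at h
    have hne : 1 - q ^ 4 ≠ 0 := sub_ne_zero.2 (hq 4 (by norm_num)).symm
    apply mul_left_cancel₀ hne
    linear_combination h
  have h10 : N 1 0 = 1 := by
    have h := hN 1 0
    simp only [Finset.sum_range_succ, Finset.sum_range_zero, zero_add, Nat.reduceAdd, u10, u11, u00, u20, u21, u22, v10, v11, v00, v20, v21, v22,
      h00] at h
    norm_num at h
    have hne : 1 - q ^ 2 ≠ 0 := sub_ne_zero.2 (hq 2 (by norm_num)).symm
    apply mul_left_cancel₀ hne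
    linear_combination h
  have h11 : N 1 1 = 1 + q^1 + q^2 := by
    have h := hN 1 1
    simp only [Finset.sum_range_succ, Finset.sum_range_zero, zero_add, Nat.reduceAdd, u10, u11, u00, u20, u21, u22, v10, v11, v00, v20, v21, v22,
      h00, h01, h10] at h
    norm_num at h
    have hne : 1 - q ^ 1 ≠ 0 := sub_ne_zero.2 (hq 1 (by norm_num)).symm
    apply mul_left_cancel₀ hne
    linear_combination h
  have h12 : N 1 2 = 1 + q^1 + 3*q^2 + q^3 + q^4 := by
    have h := hN 1 2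
    simp only [Finset.sum_range_succ, Finset.sum_range_zero, zero_add, Nat.reduceAdd, u10, u11, u00, u20, u21, u22, v10, v11, v00, v20, v21, v22,
      h00, h01, h02, h10, h11] at h
    norm_num at h
    have hne : 1 - q ^ 2 ≠ 0 := sub_ne_zero.2 (hq 2 (by norm_num)).symm
    apply mul_left_cancel₀ hne
    linear_combination h
  have h20 : N 2 0 = 1 := by
    have h := hN 2 0
    simp only [Finset.sum_range_succ, Finset.sum_range_zero, zero_add, Nat.reduceAdd, u10, u11, u00, u20, u21, u22, v10, v11, v00, v20, v21, v22,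
      h00, h10] at h
    norm_num at h
    have hne : 1 - q ^ 8 ≠ 0 := sub_ne_zero.2 (hq 8 (by norm_num)).symm
    apply mul_left_cancel₀ hne
    linear_combination h
  have h21 : N 2 1 = 1 + q^1 + q^2 + q^3 + q^4 := by
    have h := hN 2 1
    simp only [Finset.sum_range_succ, Finset.sum_range_zero, zero_add, Nat.reduceAdd, u10, u11, u00, u20, u21, u22, v10, v11, v00, v20, v21, v22,
      h00, h01, h10, h11, h20] at h
    norm_num at h
    have hne : 1 - q ^ 5 ≠ 0 := sub_ne_zero.2 (hq 5 (by norm_num)).symm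
    apply mul_left_cancel₀ hne
    linear_combination h
  have h22 : N 2 2 = 1 + q^1 + 3*q^2 + 2*q^3 + 5*q^4 + 2*q^5 + 3*q^6 + q^7 + q^8 := by
    have h := hN 2 2
    simp only [Finset.sum_range_succ, Finset.sum_range_zero, zero_add, Nat.reduceAdd, u10, u11, u00, u20, u21, u22, v10, v11, v00, v20, v21, v22,
      h00, h01, h02, h10, h11, h12, h20, h21] at h
    norm_num at h
    have hne : 1 - q ^ 4 ≠ 0 := sub_ne_zero.2 (hq 4 (by norm_num)).symm
    apply mul_left_cancel₀ hne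
    linear_combination h
  exact h22

theorem valG (q : K) (hq : ∀ k, 0 < k → q ^ k ≠ 1) (N : ℕ → ℕ → K) (h00 : N 0 0 = 1)
    (hN : ∀ a b, N a b = ∑ x ∈ range (a + 1), ∑ y ∈ range (b + 1),
      q ^ (3 * x ^ 2 + y ^ 2 - 3 * x * y) * cc q 3 a x * cc q 1 b y * N x y) :
    N 3 3 = 1 + 2*q^1 + 5*q^2 + 11*q^3 + 16*q^4 + 24*q^5 + 39*q^6 + 46*q^7 + 60*q^8 + 84*q^9 + 88*q^10 + 99*q^11 + 119*q^12 + 110*q^13 + 110*q^14 + 119*q^15 + 99*q^16 + 88*q^17 + 84*q^18 + 60*q^19 + 46*q^20 + 39*q^21 + 24*q^22 + 16*q^23 + 11*q^24 + 5*q^25 + 2*q^26 + q^27 := by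
  have u10 := cc_one_zero q hq 3 (by norm_num)
  have u11 := cc_self q hq 3 (by norm_num) 1
  have u00 := cc_self q hq 3 (by norm_num) 0
  have u20 := cc_two_zero q hq 3 (by norm_num)
  have u21 := cc_two_one q hq 3 (by norm_num)
  have u22 := cc_self q hq 3 (by norm_num) 2
  have v10 := cc_one_zero q hq 1 (by norm_num)
  have v11 := cc_self q hq 1 (by norm_num) 1
  have v00 := cc_self q hq 1 (by norm_num) 0
  have v20 := cc_two_zero q hq 1 (by norm_num)
  have v21 := cc_two_one q hq 1 (by norm_num)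
  have v22 := cc_self q hq 1 (by norm_num) 2
  have u30 := cc_three_zero q hq 3 (by norm_num)
  have u31 := cc_three_one q hq 3 (by norm_num)
  have u32 := cc_three_two q hq 3 (by norm_num)
  have u33 := cc_self q hq 3 (by norm_num) 3
  have v30 := cc_three_zero q hq 1 (by norm_num)
  have v31 := cc_three_one q hq 1 (by norm_num)
  have v32 := cc_three_two q hq 1 (by norm_num)
  have v33 := cc_self q hq 1 (by norm_num) 3
  have h01 : N 0 1 = 1 := by
    have h := hN 0 1
    simp only [Finset.sum_range_succ, Finset.sum_range_zero, zero_add, Nat.reduceAdd, u10, u11, u00, u20, u21, u22, v10, v11, v00, v20, v21, v22, u30, u31, u32, u33, v30, v31, v32, v33,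
      h00] at h
    norm_num at h
    have hne : 1 - q ^ 1 ≠ 0 := sub_ne_zero.2 (hq 1 (by norm_num)).symm
    apply mul_left_cancel₀ hne
    linear_combination h
  have h02 : N 0 2 = 1 := by
    have h := hN 0 2
    simp only [Finset.sum_range_succ, Finset.sum_range_zero, zero_add, Nat.reduceAdd, u10, u11, u00, u20, u21, u22, v10, v11, v00, v20, v21, v22, u30, u31, u32, u33, v30, v31, v32, v33,
      h00, h01] at h
    norm_num at h
    have hne : 1 - q ^ 4 ≠ 0 := sub_ne_zero.2 (hq 4 (by norm_num)).symm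
    apply mul_left_cancel₀ hne
    linear_combination h
  have h03 : N 0 3 = 1 := by
    have h := hN 0 3
    simp only [Finset.sum_range_succ, Finset.sum_range_zero, zero_add, Nat.reduceAdd, u10, u11, u00, u20, u21, u22, v10, v11, v00, v20, v21, v22, u30, u31, u32, u33, v30, v31, v32, v33,
      h00, h01, h02] at h
    norm_num at h
    have hne : 1 - q ^ 9 ≠ 0 := sub_ne_zero.2 (hq 9 (by norm_num)).symm
    apply mul_left_cancel₀ hne
    linear_combination h
  have h10 : N 1 0 = 1 := by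
    have h := hN 1 0
    simp only [Finset.sum_range_succ, Finset.sum_range_zero, zero_add, Nat.reduceAdd, u10, u11, u00, u20, u21, u22, v10, v11, v00, v20, v21, v22, u30, u31, u32, u33, v30, v31, v32, v33,
      h00] at h
    norm_num at h
    have hne : 1 - q ^ 3 ≠ 0 := sub_ne_zero.2 (hq 3 (by norm_num)).symm
    apply mul_left_cancel₀ hne
    linear_combination h
  have h11 : N 1 1 = 1 + q^1 + q^2 + q^3 := by
    have h := hN 1 1
    simp only [Finset.sum_range_succ, Finset.sum_range_zero, zero_add, Nat.reduceAdd, u10, u11, u00, u20, u21, u22, v10, v11, v00, v20, v21, v22, u30, u31, u32, u33, v30, v31, v32, v33,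
      h00, h01, h10] at h
    norm_num at h
    have hne : 1 - q ^ 1 ≠ 0 := sub_ne_zero.2 (hq 1 (by norm_num)).symm
    apply mul_left_cancel₀ hne
    linear_combination h
  have h12 : N 1 2 = 1 + 2*q^1 + 4*q^2 + 5*q^3 + 4*q^4 + 2*q^5 + q^6 := by
    have h := hN 1 2
    simp only [Finset.sum_range_succ, Finset.sum_range_zero, zero_add, Nat.reduceAdd, u10, u11, u00, u20, u21, u22, v10, v11, v00, v20, v21, v22, u30, u31, u32, u33, v30, v31, v32, v33,
      h00, h01, h02, h10, h11] at h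
    norm_num at h
    have hne : 1 - q ^ 1 ≠ 0 := sub_ne_zero.2 (hq 1 (by norm_num)).symm
    apply mul_left_cancel₀ hne
    linear_combination h
  have h13 : N 1 3 = 1 + 2*q^1 + 5*q^2 + 10*q^3 + 11*q^4 + 11*q^5 + 10*q^6 + 5*q^7 + 2*q^8 + q^9 := by
    have h := hN 1 3
    simp only [Finset.sum_range_succ, Finset.sum_range_zero, zero_add, Nat.reduceAdd, u10, u11, u00, u20, u21, u22, v10, v11, v00, v20, v21, v22, u30, u31, u32, u33, v30, v31, v32, v33,
      h00, h01, h02, h03, h10, h11, h12] at h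
    norm_num at h
    have hne : 1 - q ^ 3 ≠ 0 := sub_ne_zero.2 (hq 3 (by norm_num)).symm
    apply mul_left_cancel₀ hne
    linear_combination h
  have h20 : N 2 0 = 1 := by
    have h := hN 2 0
    simp only [Finset.sum_range_succ, Finset.sum_range_zero, zero_add, Nat.reduceAdd, u10, u11, u00, u20, u21, u22, v10, v11, v00, v20, v21, v22, u30, u31, u32, u33, v30, v31, v32, v33,
      h00, h10] at h
    norm_num at h
    have hne : 1 - q ^ 12 ≠ 0 := sub_ne_zero.2 (hq 12 (by norm_num)).symm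
    apply mul_left_cancel₀ hne
    linear_combination h
  have h21 : N 2 1 = 1 + q^1 + q^2 + q^3 + q^4 + q^5 + q^6 := by
    have h := hN 2 1
    simp only [Finset.sum_range_succ, Finset.sum_range_zero, zero_add, Nat.reduceAdd, u10, u11, u00, u20, u21, u22, v10, v11, v00, v20, v21, v22, u30, u31, u32, u33, v30, v31, v32, v33,
      h00, h01, h10, h11, h20] at h
    norm_num at h
    have hne : 1 - q ^ 7 ≠ 0 := sub_ne_zero.2 (hq 7 (by norm_num)).symm
    apply mul_left_cancel₀ hne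
    linear_combination h
  have h22 : N 2 2 = 1 + 2*q^1 + 4*q^2 + 5*q^3 + 7*q^4 + 8*q^5 + 10*q^6 + 8*q^7 + 7*q^8 + 5*q^9 + 4*q^10 + 2*q^11 + q^12 := by
    have h := hN 2 2
    simp only [Finset.sum_range_succ, Finset.sum_range_zero, zero_add, Nat.reduceAdd, u10, u11, u00, u20, u21, u22, v10, v11, v00, v20, v21, v22, u30, u31, u32, u33, v30, v31, v32, v33,
      h00, h01, h02, h10, h11, h12, h20, h21] at h
    norm_num at h
    have hne : 1 - q ^ 4 ≠ 0 := sub_ne_zero.2 (hq 4 (by norm_num)).symm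
    apply mul_left_cancel₀ hne
    linear_combination h
  have h23 : N 2 3 = 1 + 2*q^1 + 5*q^2 + 11*q^3 + 16*q^4 + 24*q^5 + 38*q^6 + 41*q^7 + 47*q^8 + 54*q^9 + 47*q^10 + 41*q^11 + 38*q^12 + 24*q^13 + 16*q^14 + 11*q^15 + 5*q^16 + 2*q^17 + q^18 := by
    have h := hN 2 3
    simp only [Finset.sum_range_succ, Finset.sum_range_zero, zero_add, Nat.reduceAdd, u10, u11, u00, u20, u21, u22, v10, v11, v00, v20, v21, v22, u30, u31, u32, u33, v30, v31, v32, v33,
      h00, h01, h02, h03, h10, h11, h12, h13, h20, h21, h22] at h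
    norm_num at h
    have hne : 1 - q ^ 3 ≠ 0 := sub_ne_zero.2 (hq 3 (by norm_num)).symm
    apply mul_left_cancel₀ hne
    linear_combination h
  have h30 : N 3 0 = 1 := by
    have h := hN 3 0
    simp only [Finset.sum_range_succ, Finset.sum_range_zero, zero_add, Nat.reduceAdd, u10, u11, u00, u20, u21, u22, v10, v11, v00, v20, v21, v22, u30, u31, u32, u33, v30, v31, v32, v33,
      h00, h10, h20] at h
    norm_num at h
    have hne : 1 - q ^ 27 ≠ 0 := sub_ne_zero.2 (hq 27 (by norm_num)).symm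
    apply mul_left_cancel₀ hne
    linear_combination h
  have h31 : N 3 1 = 1 + q^1 + q^2 + q^3 + q^4 + q^5 + q^6 + q^7 + q^8 + q^9 := by
    have h := hN 3 1
    simp only [Finset.sum_range_succ, Finset.sum_range_zero, zero_add, Nat.reduceAdd, u10, u11, u00, u20, u21, u22, v10, v11, v00, v20, v21, v22, u30, u31, u32, u33, v30, v31, v32, v33,
      h00, h01, h10, h11, h20, h21, h30] at h
    norm_num at h
    have hne : 1 - q ^ 19 ≠ 0 := sub_ne_zero.2 (hq 19 (by norm_num)).symm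
    apply mul_left_cancel₀ hne
    linear_combination h
  have h32 : N 3 2 = 1 + 2*q^1 + 4*q^2 + 5*q^3 + 7*q^4 + 8*q^5 + 10*q^6 + 11*q^7 + 13*q^8 + 14*q^9 + 13*q^10 + 11*q^11 + 10*q^12 + 8*q^13 + 7*q^14 + 5*q^15 + 4*q^16 + 2*q^17 + q^18 := by
    have h := hN 3 2
    simp only [Finset.sum_range_succ, Finset.sum_range_zero, zero_add, Nat.reduceAdd, u10, u11, u00, u20, u21, u22, v10, v11, v00, v20, v21, v22, u30, u31, u32, u33, v30, v31, v32, v33,
      h00, h01, h02, h10, h11, h12, h20, h21, h22, h30, h31] at h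
    norm_num at h
    have hne : 1 - q ^ 13 ≠ 0 := sub_ne_zero.2 (hq 13 (by norm_num)).symm
    apply mul_left_cancel₀ hne
    linear_combination h
  have h33 : N 3 3 = 1 + 2*q^1 + 5*q^2 + 11*q^3 + 16*q^4 + 24*q^5 + 39*q^6 + 46*q^7 + 60*q^8 + 84*q^9 + 88*q^10 + 99*q^11 + 119*q^12 + 110*q^13 + 110*q^14 + 119*q^15 + 99*q^16 + 88*q^17 + 84*q^18 + 60*q^19 + 46*q^20 + 39*q^21 + 24*q^22 + 16*q^23 + 11*q^24 + 5*q^25 + 2*q^26 + q^27 := by
    have h := hN 3 3
    simp only [Finset.sum_range_succ, Finset.sum_range_zero, zero_add, Nat.reduceAdd, u10, u11, u00, u20, u21, u22, v10, v11, v00, v20, v21, v22, u30, u31, u32, u33, v30, v31, v32, v33,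
      h00, h01, h02, h03, h10, h11, h12, h13, h20, h21, h22, h23, h30, h31, h32] at h
    norm_num at h
    have hne : 1 - q ^ 9 ≠ 0 := sub_ne_zero.2 (hq 9 (by norm_num)).symm
    apply mul_left_cancel₀ hne
    linear_combination h
  exact h33

end Pool.Agent.Q2.UN
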